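import Pool.Agent.U157.Kato.Atlas

/-!
# Every Kato surface has a birational structure

The definitions are in `Pool/Agent/U157/Kato/Defs.lean`.

Let `Z → ℂ²` be a finite sequence of blow-ups over the origin, and let `σ` be a holomorphic embedding
of the ball into `Z`. Put `F = proj ∘ σ`, a contracting germ at the origin. The proof has these steps.

* `exists_cremona` (file `Jet`): every jet of a locally biholomorphic germ of the plane is the jet of a
  germ of a birational map which is locally biholomorphic at the origin.
* `exists_conj` (file `Conj`): if `α` is tangent to the identity to a high order at the origin then
  `F` and `α ∘ F` are conjugate, by a convergent conjugacy tangent to the identity, unless the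
  exceptional curve of `F` has a nonzero multiplier.
* `enoki_core` (file `Enoki`): when the multiplier is not zero then `F` is conjugate to the germ of a
  map `(z, w) ↦ (t z, κ zᵐ w + Q(z))`, `Q` a polynomial.
* `exists_normal` (file `Base`): in all cases `F` is conjugate to the germ `F'` of a birational map of
  the plane.
* `tower_chart` (file `Tower`): for every local coordinate system at the origin there are charts at
  the points of `Z` over the origin in which the projection is a birational polynomial map.
* `kato_birational` (file `Atlas`), `hasBirational_of_local` (file `Patch`): the charts of the quotient
  surface which come from these charts of `Z` change by birational maps; the compactness of the surface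
  gives an atlas for which every change of charts is the restriction of one birational map.
-/

set_option autoImplicit false

open Manifold
open scoped ContDiff

namespace Pool.Agent.Results.MP_686bb6_ag.KatoSurfaces

open Pool.Agent.U157.Kato

/-- Every Kato surface has a birational structure: there is an atlas of holomorphic charts with values
in `ℂ² ⊂ ℙ²` such that every change of charts is the restriction of a birational self-map of `ℙ²`. -/
theorem result (S : Type) [TopologicalSpace S] [T2Space S] [CompactSpace S] [ChartedSpace V S]
    [IsManifold 𝓘(ℂ, V) ω S] (hS : IsKatoSurface S) : HasBirationalStructure S :=
  kato_birational S hS

end Pool.Agent.Results.MP_686bb6_ag.KatoSurfaces
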